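import Pool.Agent.KS6_28.BF.Filt

/-!
# Consequences of the t-structure
-/

set_option linter.unusedSectionVars false
set_option linter.style.haveILetI false

open CategoryTheory Limits MonoidalCategory Triangulated Pretriangulated

universe u v₁ v₂ u₁ u₂ w

namespace Pool.Agent.KS6_28.BF

open Pool.Agent.KS6_13.PF
open Pool.Agent.KS6_28.MW
open Pool.Agent.W492
open Pool.Agent.W492.MT (Setup InDeg IsSum tr)
open Pool.Agent.W492.PC Pool.Agent.W492.TS

variable {Λ : Type w} [Nonempty Λ] {M : Motives.{v₁, v₂, u₁, u₂} Λ} {G : Varieties.{u} M}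

/-- a composition through a direct sum -/
theorem mem_of_isSum {𝒬 : ObjectProperty M.T} (n : ℕ) : ∀ {X : M.T},
    IsSum 𝒬 n X → ∀ {m : ℤ} {W Z : M.T} (S : AddSubgroup (W ⟶ Z)) (f : W ⟶ X⟦m⟧)
      (φ : X⟦m⟧ ⟶ Z),
    (∀ (A : M.T) (r : Retract A X), 𝒬 A → f ≫ r.r⟦m⟧' ≫ r.i⟦m⟧' ≫ φ ∈ S) → f ≫ φ ∈ S := by
  induction n with
  | zero =>
    intro X hX m W Z S f φ _
    rw [(Functor.map_isZero (shiftFunctor M.T m) hX).eq_of_tgt f 0, zero_comp]
    exact S.zero_mem
  | succ n ih =>
    rintro X ⟨A, B, hA, hB, ⟨e⟩⟩ m W Z S f φ H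
    obtain ⟨rA, rB, h1⟩ : ∃ (rA : Retract A X) (rB : Retract B X),
        rA.r ≫ rA.i + rB.r ≫ rB.i = 𝟙 X := by
      refine ⟨⟨biprod.inl ≫ e.inv, e.hom ≫ biprod.fst, by simp⟩,
        ⟨biprod.inr ≫ e.inv, e.hom ≫ biprod.snd, by simp⟩, ?_⟩
      have h2 : (e.hom ≫ biprod.fst) ≫ biprod.inl ≫ e.inv +
          (e.hom ≫ biprod.snd) ≫ biprod.inr ≫ e.inv =
          e.hom ≫ (biprod.fst ≫ biprod.inl + biprod.snd ≫ biprod.inr) ≫ e.inv := by
        simp only [Category.assoc, Preadditive.add_comp, Preadditive.comp_add]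
      rw [h2, biprod.total, Category.id_comp, e.hom_inv_id]
    have h3 : (f ≫ rB.r⟦m⟧') ≫ (rB.i⟦m⟧' ≫ φ) ∈ S := by
      refine ih hB S _ _ fun A' r' hA' => ?_
      have := H A' (r'.trans rB) hA'
      simpa only [Retract.trans_i, Retract.trans_r, Functor.map_comp, Category.assoc] using this
    have h4 : f ≫ φ = f ≫ rA.r⟦m⟧' ≫ rA.i⟦m⟧' ≫ φ + (f ≫ rB.r⟦m⟧') ≫ (rB.i⟦m⟧' ≫ φ) := by
      have h5 : φ = (rA.r ≫ rA.i + rB.r ≫ rB.i)⟦m⟧' ≫ φ := by
        rw [h1, CategoryTheory.Functor.map_id, Category.id_comp]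
      nth_rewrite 1 [h5]
      rw [Functor.map_add, Preadditive.add_comp, Preadditive.comp_add, Functor.map_comp,
        Functor.map_comp]
      simp only [Category.assoc]
    rw [h4]
    exact S.add_mem (H A rA hA) h3

/-- the decomposition of a class -/
theorem mem_of_parts {X : M.T} {n : ℕ}
    (hn : IsSum (fun Y => ∃ d, G.Chow Y ∧ InDeg M.R M.s d Y) n X) {m : ℤ}
    (S : AddSubgroup (Coh M m X)) (f : Coh M m X)
    (H : ∀ (A : M.T) (r : Retract A X) (d : ℤ), G.Chow A → InDeg M.R M.s d A →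
      act (act f r.r) r.i ∈ S) : f ∈ S := by
  have h := mem_of_isSum n hn S f (𝟙 _) fun A r ⟨d, hA, hd⟩ => by
    have := H A r d hA hd
    unfold act at this
    rwa [Category.comp_id, ← Category.assoc]
  rwa [Category.comp_id] at h

/-- the filtration -/
def filt (G : Varieties.{u} M) (m : ℤ) : Filt G m := fun V n ν =>
  { carrier := {f | ∀ (a : ℤ) (Y : M.T) (g : G.obj V n ⟶ Y), m - ν < a → G.Chow Y →
      InDeg M.R M.s a Y → act f g = 0}
    zero_mem' := fun _ _ g _ _ _ => zero_act g
    add_mem' := fun {x y} hx hy a Y g h1 h2 h3 => by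
      have h4 := hx a Y g h1 h2 h3
      have h5 := hy a Y g h1 h2 h3
      unfold act at h4 h5 ⊢
      rw [Preadditive.add_comp, h4, h5, add_zero]
    neg_mem' := fun {x} hx a Y g h1 h2 h3 => by
      have h4 := hx a Y g h1 h2 h3
      unfold act at h4 ⊢
      rw [Preadditive.neg_comp, h4, neg_zero] }

section
variable (hG : IsSmoothProj G) (hN : PureNumerical M G.Chow)
  (hV : ∀ (X : M.T) (d : ℤ), G.Chow X → InDeg M.R M.s d X → ∀ m : ℤ, m < d →
    ∀ f : 𝟙_ M.T ⟶ X⟦m⟧, f = 0)
  (hK : MT.Kunneth M.R M.s G.Chow)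
include hG hN hV hK

/-- numerically trivial classes in degree equal to the shift -/
theorem coh_zero_of_numTrivial {Y : M.T} {m : ℤ} (hY : G.Chow Y) (hYd : InDeg M.R M.s m Y)
    (f : Coh M m Y) (hf : NumTrivial M f) : f = 0 := by
  rcases lt_trichotomy m 0 with h0 | h0 | h0
  · exact hom_zero_of_neg hG hN hY hYd h0 _
  · subst h0
    have h1 : f ≫ (shiftFunctorZero M.T ℤ).hom.app Y = 0 :=
      eq_zero_of_pureNumerical hG hN hY hYd _ (hf.comp _)
    rw [← cancel_mono ((shiftFunctorZero M.T ℤ).hom.app Y), h1, zero_comp]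
  · exact hG.setup.orth _ _ hG.setup.one_mem hY m h0 _

theorem isBlochBeilinson (m : ℤ) : IsBlochBeilinson G m (filt G m) where
  zero V n f := by
    intro a Y g h1 h2 h3
    exact hV Y a h2 h3 m (by simpa using h1) _
  anti V n ν f := by
    intro hf a Y g h1 h2 h3
    exact hf a Y g (by push_cast; omega) h2 h3
  one V n f := by
    constructor
    · intro hf
      obtain ⟨k, hk⟩ := hK _ (chow_obj V n)
      let S : AddSubgroup (Coh M m (G.obj V n)) :=
        { carrier := {f | ZeroAt M 0 f}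
          zero_mem' := ZeroAt.zero _ _ _
          add_mem' := fun h1 h2 => ZeroAt.add h1 h2
          neg_mem' := fun h1 => ZeroAt.neg h1 }
      refine mem_of_parts hk S f fun A r d hA hd => ?_
      by_cases hdm : m ≤ d
      · rw [hf d A r.r (by push_cast; omega) hA hd, zero_act]
        exact S.zero_mem
      · have h1 : InDeg M.R M.s (d - m) (A⟦m⟧) := RDeg.shift (by ring) hd
        have h2 : ZeroAt M 0 (act f r.r) := zeroAt_of_inDeg_right (by omega) h1 _
        exact h2.comp_right _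
    · intro hf a Y g h1 h2 h3
      rcases eq_or_lt_of_le (show m ≤ a by push_cast at h1; omega) with h | h
      · subst h
        exact coh_zero_of_numTrivial hG hN hV hK h2 h3 _
          (numTrivial_of_zeroAt hG (ZeroAt.comp_right hf _))
      · exact hV Y a h2 h3 m h _
  functorial V W n n' g ν f hf := by
    intro a Y h h1 h2 h3
    rw [← act_comp]
    exact hf a Y _ h1 h2 h3
  motivic V W n n' g ν hg f hf := by
    intro a Y h h1 h2 h3
    rw [← act_comp]
    rcases eq_or_lt_of_le (show m - ν ≤ a by push_cast at h1; omega) with h4 | h4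
    · subst h4
      obtain ⟨c, hc⟩ : ∃ c : G.obj V n ⟶ Y, c = g ≫ h := ⟨_, rfl⟩
      have hc0 : ∀ j, ZeroAt M j c := fun j => by
        by_cases hj : j = m - ν
        · rw [hj, hc]
          exact hg.comp_right h
        · exact zeroAt_of_inDeg_right hj h3 c
      rw [← hc]
      obtain ⟨k, hk⟩ := hK _ (chow_obj V n)
      refine comp_eq_zero_of_isSum k hk f _ fun A r => ?_
      rintro ⟨b, hA, hb⟩
      rcases lt_trichotomy b (m - ν) with h5 | h5 | h5
      · have h6 : r.i ≫ c = 0 := hom_eq_zero_of_lt hG hN hV hK hA hb h2 h3 h5 _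
        rw [← Functor.map_comp, h6, Functor.map_zero, comp_zero, comp_zero]
      · subst h5
        have h6 : r.i ≫ c = 0 :=
          hom_eq_zero_of_eq hG hN hV hK hA hb h2 h3 _ fun n => (hc0 n).comp_left _
        rw [← Functor.map_comp, h6, Functor.map_zero, comp_zero, comp_zero]
      · have h6 : f ≫ r.r⟦m⟧' = 0 := hf b A r.r h5 hA hb
        rw [← Category.assoc, h6, zero_comp]
    · exact hf a Y _ h4 h2 h3
  finite V n := by
    refine ⟨(m + 2 * n + 1).toNat, fun f hf => ?_⟩
    obtain ⟨k, hk⟩ := hK _ (chow_obj V n)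
    have h1 : f ≫ 𝟙 _ = 0 := by
      refine comp_eq_zero_of_isSum k hk f _ fun A r => ?_
      rintro ⟨b, hA, hb⟩
      by_cases hbn : b < -2 * n
      · have h2 : 𝟙 A = 0 := by
          refine hom_eq_zero_of_eq hG hN hV hK hA hb hA hb _ fun j => ?_
          by_cases hj : j = b
          · subst hj
            have h3 : ZeroAt M j (𝟙 (G.obj V n)) :=
              zeroAt_of_ge (m := -2 * n) (by omega) (fun ℓ => (hG.degrees V n ℓ).1) _
            have h4 : 𝟙 A = r.i ≫ 𝟙 _ ≫ r.r := by rw [Category.id_comp, r.retract]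
            rw [h4]
            exact (h3.comp_right _).comp_left _
          · exact zeroAt_of_inDeg_left hj hb _
        have h3 : r.r = 0 := by rw [← Category.comp_id r.r, h2, comp_zero]
        rw [h3, Functor.map_zero, zero_comp, comp_zero]
      · have h2 : f ≫ r.r⟦m⟧' = 0 := hf b A r.r (by omega) hA hb
        rw [← Category.assoc, h2, zero_comp]
    rwa [Category.comp_id] at h1

/-- the components of a numerically trivial class of weight `a ≥ m` in `Hom(1, X[m])` -/
theorem act_eq_zero {X : M.T} (hX : G.Chow X) {m a : ℤ} (hma : m ≤ a) {δ : X ⟶ X}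
    (hδ : IsDegree M δ) {f : Coh M m X} (hf : act f δ = (a : ℚ) • f) (hf' : NumTrivial M f)
    (k : ℕ) : ∀ (b : ℤ), m - k ≤ b → ∀ (Y : M.T), G.Chow Y → InDeg M.R M.s b Y → ∀ g : X ⟶ Y,
      act f g = 0 := by
  induction k with
  | zero =>
    intro b hb Y hY hYd g
    rcases eq_or_lt_of_le (show m ≤ b by simpa using hb) with h | h
    · subst h
      exact coh_zero_of_numTrivial hG hN hV hK hY hYd _ (hf'.comp _)
    · exact hV Y b hY hYd m h _
  | succ k ih =>
    intro b hb Y hY hYd g
    by_cases hbk : m - k ≤ b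
    · exact ih b hbk Y hY hYd g
    obtain ⟨c, hc⟩ : ∃ c : X ⟶ Y, c = (δ - (b : ℚ) • 𝟙 X) ≫ g := ⟨_, rfl⟩
    have hc0 : ∀ n, ZeroAt M n c := fun n => by
      by_cases hn : n = b
      · subst hn
        rw [hc]
        exact (hδ n).comp_right g
      · exact zeroAt_of_inDeg_right hn hYd c
    obtain ⟨n, hn⟩ := hK X hX
    have h1 : act f c = 0 := by
      refine comp_eq_zero_of_isSum n hn f _ fun A r => ?_
      rintro ⟨e, hA, he⟩
      rcases lt_trichotomy e b with h | h | h
      · have h2 : r.i ≫ c = 0 := hom_eq_zero_of_lt hG hN hV hK hA he hY hYd h _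
        rw [← Functor.map_comp, h2, Functor.map_zero, comp_zero, comp_zero]
      · subst h
        have h2 : r.i ≫ c = 0 :=
          hom_eq_zero_of_eq hG hN hV hK hA he hY hYd _ fun n => (hc0 n).comp_left _
        rw [← Functor.map_comp, h2, Functor.map_zero, comp_zero, comp_zero]
      · have h2 : f ≫ r.r⟦m⟧' = 0 := ih e (by push_cast at hb; omega) A hA he r.r
        rw [← Category.assoc, h2, zero_comp]
    have h2 : act f c = ((a : ℚ) - b) • act f g := by
      unfold act at hf ⊢
      rw [hc, Functor.map_comp, Functor.map_sub, Functor.map_smul,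
        CategoryTheory.Functor.map_id, Preadditive.sub_comp, Preadditive.comp_sub,
        ← Category.assoc, hf, Linear.smul_comp, Linear.smul_comp, Category.id_comp,
        Linear.comp_smul, sub_smul]
    rw [h2] at h1
    have h3 : (a : ℚ) - b ≠ 0 := by
      rw [sub_ne_zero]
      intro h4
      have h5 : a = b := by exact_mod_cast h4
      apply hbk
      omega
    exact (smul_eq_zero.1 h1).resolve_left h3

theorem middleWeights_of_kunneth : MiddleWeights G := by
  intro V n m δ f hm hδ hf hf'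
  obtain ⟨k, hk⟩ := hK _ (chow_obj V n)
  have hf2 : act f δ = (((G.dim V : ℤ) - 2 * n : ℤ) : ℚ) • f := hf
  have h1 : f ≫ 𝟙 _ = 0 := by
    refine comp_eq_zero_of_isSum k hk f _ fun A r => ?_
    rintro ⟨a, hA, ha⟩
    have h2 : f ≫ r.r⟦m⟧' = 0 := act_eq_zero hG hN hV hK (chow_obj V n) (by omega) hδ hf2 hf'
      (m - a).toNat a (by omega) A hA ha r.r
    rw [← Category.assoc, h2, zero_comp]
  rwa [Category.comp_id] at h1

/-- generation by varieties of small dimension -/
theorem smallDimension_of_kunneth (hB : Base G) : SmallDimension G := by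
  intro V n m hm f
  by_cases hVd : (G.dim V : ℤ) < 2 * n + m
  · exact AddSubgroup.subset_closure ⟨V, f, 𝟙 _, hVd, act_id f⟩
  obtain ⟨k, hk⟩ := hK _ (chow_obj V n)
  refine mem_of_parts hk _ f fun A r b hA hb => ?_
  rcases lt_trichotomy b m with h | h | h
  · rcases isZero_or_exists_middle' hG hB r hb with h0 | ⟨Y, n', h1, -, h3, ⟨j⟩⟩
    · have h2 : r.r = 0 := h0.eq_of_tgt _ _
      rw [h2, act_zero, zero_act]
      exact AddSubgroup.zero_mem _
    · have h4 := h3 (by omega)
      subst h4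
      refine AddSubgroup.subset_closure ⟨Y, act (act f r.r) j.i, j.r ≫ r.i, by omega, ?_⟩
      rw [act_comp, act_retract]
  · subst h
    have h2 : act f r.r = 0 := hom_zero_of_neg hG hN hA hb hm _
    rw [h2, zero_act]
    exact AddSubgroup.zero_mem _
  · have h2 : act f r.r = 0 := hV A b hA hb m h _
    rw [h2, zero_act]
    exact AddSubgroup.zero_mem _

/-- homological and numerical equivalence agree -/
theorem homEqNum_of_parts : HomEqNum G := by
  intro V n f hf
  obtain ⟨k, hk⟩ := hK _ (chow_obj V n)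
  let S : AddSubgroup (Coh M 0 (G.obj V n)) :=
    { carrier := {f | ZeroAt M 0 f}
      zero_mem' := ZeroAt.zero _ _ _
      add_mem' := fun h1 h2 => ZeroAt.add h1 h2
      neg_mem' := fun h1 => ZeroAt.neg h1 }
  refine mem_of_parts hk S f fun A r d hA hd => ?_
  by_cases h0 : d = 0
  · subst h0
    have h2 : act f r.r = 0 :=
      coh_zero_of_numTrivial hG hN hV hK hA hd _ (NumTrivial.comp hf _)
    rw [h2, zero_act]
    exact S.zero_mem
  · have h1 : InDeg M.R M.s (d - 0) (A⟦(0 : ℤ)⟧) := RDeg.shift (by ring) hd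
    have h2 : ZeroAt M 0 (act f r.r) := zeroAt_of_inDeg_right (by omega) h1 _
    exact h2.comp_right _

end

end Pool.Agent.KS6_28.BF
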