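import Pool.Agent.KS6_28.MW.Defs

/-!
# Filtrations of Bloch and Beilinson: definitions
-/

open CategoryTheory Limits MonoidalCategory Triangulated Pretriangulated

universe u v₁ v₂ u₁ u₂ w

namespace Pool.Agent.KS6_28.BF

open Pool.Agent.KS6_13.PF
open Pool.Agent.KS6_28.MW
open Pool.Agent.W492.MT (InDeg)

variable {Λ : Type w} {M M' : Motives.{v₁, v₂, u₁, u₂} Λ}

/-- The group `Hom(1, X[m])`. For `X = h(V)(n)[2n]` this is the motivic cohomology group
`H^(2n + m)(V, ℚ(n))`. -/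
abbrev Coh (M : Motives.{v₁, v₂, u₁, u₂} Λ) (m : ℤ) (X : M.T) : Type v₁ := 𝟙_ M.T ⟶ X⟦m⟧

/-- the homomorphism given by `g : X ⟶ Y` -/
def act {m : ℤ} {X Y : M.T} (f : Coh M m X) (g : X ⟶ Y) : Coh M m Y := f ≫ g⟦m⟧'

/-- `f` is zero on cohomology: its image in `H^(2n + m)(V, ℚ_ℓ(n))` (over the algebraic closure) is
zero for all `ℓ` -/
def HomTrivial {m : ℤ} {X : M.T} (f : Coh M m X) : Prop := ZeroAt M 0 f

/-- `f ≫ g = 0` for all `g : X[m] ⟶ 1` -/
def NumZero {m : ℤ} {X : M.T} (f : Coh M m X) : Prop := NumTrivial M f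

/-- `f = 0` -/
def IsNull {m : ℤ} {X : M.T} (f : Coh M m X) : Prop := f = 0

/-- `a f = f δ` -/
def HasWeight {m : ℤ} {X : M.T} (a : ℤ) (f : Coh M m X) (δ : X ⟶ X) : Prop :=
  IsMultiple M a f (act f δ)

/-- Homological and numerical equivalence agree on the Chow groups
`Hom(1, h(V)(n)[2n]) = CH^n(V)`. -/
def HomEqNum (G : Varieties.{u} M) : Prop :=
  ∀ (V : G.Var) (n : ℤ) (f : Coh M 0 (G.obj V n)), NumZero f → HomTrivial f

/-- Classes of non-zero weight: the map from `H^(2n + m)(V, ℚ(n))` to the `ℓ`-adic cohomology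
`H^(2n + m)(V, ℚ_ℓ(n))` over the algebraic closure is zero if `m ≠ 0`. -/
def NoClasses (G : Varieties.{u} M) : Prop :=
  ∀ (V : G.Var) (n m : ℤ) (f : Coh M m (G.obj V n)), m ≠ 0 → HomTrivial f

/-- a filtration of the groups `H^(2n + m)(V, ℚ(n))`, for all `V` and `n` -/
abbrev Filt (G : Varieties.{u} M) (m : ℤ) : Type (max u v₁) :=
  ∀ (V : G.Var) (n : ℤ), ℕ → AddSubgroup (Coh M m (G.obj V n))

/-- `f` is in `F^ν` -/
def Mem {G : Varieties.{u} M} {m : ℤ} (F : Filt G m) {V : G.Var} {n : ℤ} (ν : ℕ)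
    (f : Coh M m (G.obj V n)) : Prop := f ∈ F V n ν

/-- `F` is a filtration of Bloch and Beilinson on the groups `H^(2n + m)(V, ℚ(n))`, for all `V` and
`n`. -/
structure IsBlochBeilinson (G : Varieties.{u} M) (m : ℤ) (F : Filt G m) : Prop where
  zero : ∀ (V : G.Var) (n : ℤ) (f : Coh M m (G.obj V n)), Mem F 0 f
  anti : ∀ (V : G.Var) (n : ℤ) (ν : ℕ) (f : Coh M m (G.obj V n)), Mem F (ν + 1) f → Mem F ν f
  /-- `F^1` is the group of the classes which are zero in cohomology -/
  one : ∀ (V : G.Var) (n : ℤ) (f : Coh M m (G.obj V n)), Mem F 1 f ↔ HomTrivial f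
  /-- correspondences respect `F` -/
  functorial : ∀ (V W : G.Var) (n n' : ℤ) (g : G.obj V n ⟶ G.obj W n') (ν : ℕ)
    (f : Coh M m (G.obj V n)), Mem F ν f → Mem F ν (act f g)
  /-- the action of correspondences on `F^ν / F^(ν + 1)` is determined by the action on the
  cohomology in degree `m - ν` -/
  motivic : ∀ (V W : G.Var) (n n' : ℤ) (g : G.obj V n ⟶ G.obj W n') (ν : ℕ),
    ZeroAt M (m - ν) g → ∀ f : Coh M m (G.obj V n), Mem F ν f → Mem F (ν + 1) (act f g)
  finite : ∀ (V : G.Var) (n : ℤ), ∃ N : ℕ, ∀ f : Coh M m (G.obj V n), Mem F N f → IsNull f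

/-- there is a filtration of Bloch and Beilinson on the groups `H^(2n + m)(V, ℚ(n))` -/
def BlochBeilinson (G : Varieties.{u} M) (m : ℤ) : Prop := ∃ F, IsBlochBeilinson G m F

/-- `f` in `Hom(1, X[m])` is a sum of images of elements of the groups `H^(2n + m)(Y, ℚ(n))` of
varieties `Y` with `dim Y < i` -/
def FromDim (G : Varieties.{u} M) (n m i : ℤ) {X : M.T} (f : Coh M m X) : Prop :=
  f ∈ AddSubgroup.closure {f | ∃ (Y : G.Var) (g : Coh M m (G.obj Y n)) (h : G.obj Y n ⟶ X),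
    (G.dim Y : ℤ) < i ∧ act g h = f}

/-- The motivic cohomology groups `H^i(V, ℚ(n))` with `i < 2n` are generated by the images
of the groups `H^i(Y, ℚ(n))` under correspondences, for varieties `Y` with `dim Y < i`. (We write
`i = 2n + m`.) -/
def SmallDimension (G : Varieties.{u} M) : Prop :=
  ∀ (V : G.Var) (n m : ℤ), m < 0 → ∀ f : Coh M m (G.obj V n), FromDim G n m (2 * n + m) f

/-- The same for `i = dim V` only. -/
def SmallDimensionMiddle (G : Varieties.{u} M) : Prop :=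
  ∀ (V : G.Var) (n m : ℤ), m < 0 → 2 * n + m = G.dim V → ∀ f : Coh M m (G.obj V n),
    FromDim G n m (2 * n + m) f

/-- Let `i ≤ d = dim V`, and let `δ` be a degree operator. A numerically trivial class
`f` in `H^i(V, ℚ(n))` of weight `d` is zero. (We write `i = 2n + m`.) -/
def MiddleWeights (G : Varieties.{u} M) : Prop :=
  ∀ (V : G.Var) (n m : ℤ) (δ : G.obj V n ⟶ G.obj V n) (f : Coh M m (G.obj V n)),
    2 * n + m ≤ G.dim V → IsDegree M δ → HasWeight (G.dim V - 2 * n) f δ → NumZero f → IsNull f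

/-- The same for `i = d` only: a numerically trivial class of weight `d = dim V` in `H^d(V, ℚ(n))` is
zero. -/
def MiddleClasses (G : Varieties.{u} M) : Prop :=
  ∀ (V : G.Var) (n m : ℤ) (δ : G.obj V n ⟶ G.obj V n) (f : Coh M m (G.obj V n)),
    2 * n + m = G.dim V → IsDegree M δ → HasWeight (G.dim V - 2 * n) f δ → NumZero f → IsNull f

/-- For a Chow motive `X` with realisations in degree `d`, a numerically trivial element
of `Hom(1, X[d])` is zero. -/
def PureClasses (G : Varieties.{u} M) : Prop :=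
  ∀ (X : M.T) (d : ℤ), G.Chow X → InDeg M.R M.s d X → ∀ f : Coh M d X, NumZero f → IsNull f

/-- base change from `K` to `K(t)` does not change the dimension -/
def PreservesDim {G : Varieties.{u} M} {G' : Varieties.{u} M'} (E : RationalData G G') : Prop :=
  ∀ (V : G.Var) (n : ℤ), ∃ V' : G'.Var, G'.dim V' = G.dim V ∧
    Nonempty (E.pull.obj (G.obj V n) ≅ G'.obj V' n)

end Pool.Agent.KS6_28.BF
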