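import Pool.Agent.KS6_28.BF.Defs
import Pool.Agent.KS6_28.MW.Conv

/-!
# Consequences of the filtration
-/

set_option linter.unusedSectionVars false
set_option linter.style.haveILetI false

open CategoryTheory Limits MonoidalCategory Triangulated Pretriangulated

universe u v₁ v₂ u₁ u₂ w

namespace Pool.Agent.KS6_28.BF

open Pool.Agent.KS6_13.PF
open Pool.Agent.KS6_28.MW
open Pool.Agent.W492
open Pool.Agent.W492.MT (Setup InDeg IsSum tr)
open Pool.Agent.W492.PC Pool.Agent.W492.TS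

variable {Λ : Type w} [Nonempty Λ] {M : Motives.{v₁, v₂, u₁, u₂} Λ} {G : Varieties.{u} M}

theorem act_comp {m : ℤ} {X Y Z : M.T} (f : Coh M m X) (g : X ⟶ Y) (h : Y ⟶ Z) :
    act f (g ≫ h) = act (act f g) h := by
  unfold act
  rw [Functor.map_comp, Category.assoc]

theorem act_id {m : ℤ} {X : M.T} (f : Coh M m X) : act f (𝟙 X) = f := by
  unfold act
  rw [CategoryTheory.Functor.map_id, Category.comp_id]

theorem act_retract {m : ℤ} {X Y : M.T} (r : Retract X Y) (f : Coh M m X) :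
    act (act f r.i) r.r = f := by rw [← act_comp, r.retract, act_id]

theorem zero_act {m : ℤ} {X Y : M.T} (g : X ⟶ Y) : act (0 : Coh M m X) g = 0 := by
  unfold act
  rw [zero_comp]

theorem act_zero {m : ℤ} {X Y : M.T} (f : Coh M m X) : act f (0 : X ⟶ Y) = 0 := by
  unfold act
  rw [Functor.map_zero, comp_zero]

theorem zeroAt_of_numTrivial (hD : HomEqNum G) {X : M.T} (hX : G.Chow X)
    (f : Coh M 0 X) (hf : NumTrivial M f) : ZeroAt M 0 f := by
  obtain ⟨V, n, ⟨r⟩⟩ := hX
  have h1 : ZeroAt M 0 (act f r.i) := hD V n (act f r.i) (hf.comp _)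
  rw [← act_retract r f]
  exact h1.comp_right _

theorem anti_le {m : ℤ} {F : Filt G m}
    (hF : IsBlochBeilinson G m F) (V : G.Var) (n : ℤ) (N k : ℕ) (f : Coh M m (G.obj V n))
    (hf : Mem F (k + N) f) : Mem F N f := by
  induction k with
  | zero => rwa [zero_add] at hf
  | succ k ih =>
    have h : k + 1 + N = (k + N) + 1 := by ring
    rw [h] at hf
    exact ih (hF.anti V n _ f hf)

/-- the principle of the proof -/
theorem eq_zero_of_bb {m : ℤ} {F : Filt G m}
    (hF : IsBlochBeilinson G m F) {V : G.Var} {n : ℤ} {X : M.T} (r : Retract X (G.obj V n))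
    (f : Coh M m X) (ν₀ : ℕ) (h0 : Mem F ν₀ (act f r.i))
    (h : ∀ ν : ℕ, ν₀ ≤ ν → ∃ e : X ⟶ X, ZeroAt M (m - ν) e ∧ act f e = f) : f = 0 := by
  have h1 : ∀ k, Mem F (ν₀ + k) (act f r.i) := by
    intro k
    induction k with
    | zero => exact h0
    | succ k ih =>
      obtain ⟨e, he, he'⟩ := h (ν₀ + k) (by omega)
      have h2 := hF.motivic V V n n (r.r ≫ e ≫ r.i) (ν₀ + k)
        ((he.comp_right r.i).comp_left r.r) _ ih
      have h3 : act (act f r.i) (r.r ≫ e ≫ r.i) = act f r.i := by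
        rw [act_comp, act_retract, act_comp, he']
      rw [h3] at h2
      exact h2
  obtain ⟨N, hN⟩ := hF.finite V n
  have h2 : act f r.i = 0 := hN _ (anti_le hF V n N ν₀ _ (h1 N))
  rw [← act_retract r f, h2, zero_act]

section
variable (hG : IsSmoothProj G)
include hG

/-- the Künneth decompositions -/
theorem base_of_bb (hC : KunnethC G) (hD : HomEqNum G) (hB : BlochBeilinson G 0) : Base G where
  deg X hX := hasDegree_chow hC hX
  wt X hX := by
    intro δ f hδ h1 h2
    obtain ⟨F, hF⟩ := hB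
    have hZ : G.Chow (X ⊗ Xᘁ) := hG.setup.tensor_mem _ _ hX (hG.setup.dual_mem X hX)
    have h3 : ZeroAt M 0 f := zeroAt_of_numTrivial hD hZ f h2
    obtain ⟨V, n, ⟨r⟩⟩ := hZ
    refine eq_zero_of_bb hF r f 1 ((hF.one V n _).2 (h3.comp_right _)) fun ν hν => ?_
    have hν' : (ν : ℚ) ≠ 0 := by
      have : ν ≠ 0 := by omega
      exact_mod_cast this
    refine ⟨(ν : ℚ)⁻¹ • (δ - ((0 - ν : ℤ) : ℚ) • 𝟙 _), (hδ (0 - ν)).smul _, ?_⟩
    unfold act
    rw [Functor.map_smul, Functor.map_sub, Functor.map_smul, CategoryTheory.Functor.map_id,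
      Linear.comp_smul, Preadditive.comp_sub, h1, Linear.comp_smul, Category.comp_id]
    push_cast
    rw [zero_smul, zero_sub, zero_sub, neg_smul, neg_neg, smul_smul, inv_mul_cancel₀ hν', one_smul]

/-- vanishing below the degree -/
theorem coh_zero_of_lt {m : ℤ} (hB : BlochBeilinson G m) {X : M.T} (hX : G.Chow X) {d : ℤ}
    (hd : InDeg M.R M.s d X) (hm : m < d) (f : Coh M m X) : f = 0 := by
  obtain ⟨F, hF⟩ := hB
  obtain ⟨V, n, ⟨r⟩⟩ := hX
  refine eq_zero_of_bb hF r f 0 (hF.zero _ _ _) fun ν _ =>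
    ⟨𝟙 X, zeroAt_of_inDeg_left (by omega) hd _, act_id f⟩

/-- classes in degree equal to the shift -/
theorem coh_zero_of_eq {m : ℤ} (hB : BlochBeilinson G m) {X : M.T} (hX : G.Chow X)
    (hd : InDeg M.R M.s m X) (f : Coh M m X) (hf : ZeroAt M 0 f) : f = 0 := by
  obtain ⟨F, hF⟩ := hB
  obtain ⟨V, n, ⟨r⟩⟩ := hX
  refine eq_zero_of_bb hF r f 1 ((hF.one V n _).2 (hf.comp_right _)) fun ν _ =>
    ⟨𝟙 X, zeroAt_of_inDeg_left (by omega) hd _, act_id f⟩

theorem zeroAt_of_noClasses (hW : NoClasses G) {X : M.T} (hX : G.Chow X) {m : ℤ} (hm : m ≠ 0)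
    (f : Coh M m X) : ZeroAt M 0 f := by
  obtain ⟨V, n, ⟨r⟩⟩ := hX
  rw [← act_retract r f]
  exact ZeroAt.comp_right (hW V n m _ hm) _

/-- the classes `1 ⟶ X⟦d⟧` in degree `d` -/
theorem pureNumerical_of_bb (hW : NoClasses G) (hD : HomEqNum G)
    (hB : ∀ m, BlochBeilinson G m) : PureNumerical M G.Chow := by
  refine pureNumerical_of hG fun X d hX hd f hf => ?_
  by_cases h : d = 0
  · subst h
    exact coh_zero_of_eq hG (hB 0) hX hd f (zeroAt_of_numTrivial hD hX f hf)
  · exact coh_zero_of_eq hG (hB d) hX hd f (zeroAt_of_noClasses hG hW hX h f)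

theorem motivic_of_bb (hW : NoClasses G) (hC : KunnethC G) (hD : HomEqNum G)
    (hB : ∀ m, BlochBeilinson G m) : M.toRealised.HasMotivicTStructure := by
  rw [hasMotivicTStructure_iff]
  have key := (general_criterion hG.setup (lefschetz hG)).out 0 1
  refine key.2 ⟨kunneth hG (base_of_bb hG hC hD (hB 0)), fun X d hX hd => ⟨fun m hm f => ?_,
    pureNumerical_of_bb hG hW hD hB X d hX hd⟩⟩
  exact coh_zero_of_lt hG (hB m) hX hd hm f

end

end Pool.Agent.KS6_28.BF
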