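import Pool.Agent.KS6_28.BF.Conv

/-!
# Generation by varieties of small dimension
-/

set_option linter.unusedSectionVars false
set_option linter.style.haveILetI false

open CategoryTheory Limits MonoidalCategory Triangulated Pretriangulated

universe u v₁ v₂ u₁ u₂ w w'

namespace Pool.Agent.KS6_28.BF

open Pool.Agent.KS6_13.PF
open Pool.Agent.KS6_28.MW
open Pool.Agent.W492
open Pool.Agent.W492.MT (Setup InDeg IsSum tr)
open Pool.Agent.W492.PC Pool.Agent.W492.TS

variable {Λ : Type w} [Nonempty Λ]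

section
variable {M : Motives.{v₁, v₂, u₁, u₂} Λ} {G : Varieties.{u} M}

/-- no morphisms to Chow motives in a larger degree -/
theorem hom_zero_of_deg (hG : IsSmoothProj G)
    (h0 : ∀ (X : M.T) (d : ℤ), G.Chow X → InDeg M.R M.s d X → 0 < d → ∀ f : Coh M 0 X, f = 0)
    {X Y : M.T} {a b : ℤ} (hX : G.Chow X) (hXd : InDeg M.R M.s a X)
    (hY : G.Chow Y) (hYd : InDeg M.R M.s b Y) (hab : a < b) (e : X ⟶ Y) : e = 0 := by
  apply cls_eq_zero
  have h1 : cls e ≫ (shiftFunctorZero M.T ℤ).inv.app _ = 0 :=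
    h0 _ (b + -a) (hG.setup.tensor_mem _ _ hY (hG.setup.dual_mem X hX))
      (inDeg_tensor hG hYd (hG.setup.dual_deg X a hX hXd)) (by omega) _
  rw [← cancel_mono ((shiftFunctorZero M.T ℤ).inv.app _), h1, zero_comp]

/-- the inductive step -/
theorem step (hG : IsSmoothProj G) (hB : Base G)
    (h0 : ∀ (X : M.T) (d : ℤ), G.Chow X → InDeg M.R M.s d X → 0 < d → ∀ f : Coh M 0 X, f = 0)
    {Y : G.Var} {n m a : ℤ} {X : M.T} (r : Retract X (G.obj Y n)) (hd : InDeg M.R M.s a X)
    (hY : (G.dim Y : ℤ) - 2 * n = a) (hma : m ≤ a)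
    (hgen : ∀ f : Coh M m (G.obj Y n), FromDim G n m (2 * n + m) f)
    (IH : ∀ (Y' : G.Var) (A : M.T) (_ : Retract A (G.obj Y' n)) (b : ℤ), G.dim Y' < G.dim Y →
      InDeg M.R M.s b A → m ≤ b → ∀ f : Coh M m A, f = 0)
    (f : Coh M m X) : f = 0 := by
  have hX : G.Chow X := ⟨Y, n, ⟨r⟩⟩
  have h1 : AddSubgroup.closure {f | ∃ (Y' : G.Var) (g : Coh M m (G.obj Y' n))
      (h : G.obj Y' n ⟶ G.obj Y n), (G.dim Y' : ℤ) < 2 * n + m ∧ act g h = f} ≤
      (Preadditive.rightComp (𝟙_ M.T) (r.r⟦m⟧')).ker := by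
    rw [AddSubgroup.closure_le]
    rintro _ ⟨Y', g, h, hY', rfl⟩
    change act (act g h) r.r = 0
    rw [← act_comp]
    obtain ⟨k, hk⟩ := kunneth hG hB _ (chow_obj Y' n)
    refine comp_eq_zero_of_isSum k hk g _ fun A s => ?_
    rintro ⟨b, hA, hb⟩
    by_cases hab : b < a
    · have h2 : s.i ≫ h ≫ r.r = 0 := hom_zero_of_deg hG h0 hA hb hX hd hab _
      rw [← Functor.map_comp, h2, Functor.map_zero, comp_zero, comp_zero]
    · have h2 : g ≫ s.r⟦m⟧' = 0 := IH Y' A s b (by omega) hb (by omega) _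
      rw [← Category.assoc, h2, zero_comp]
  have h2 : act (act f r.i) r.r = 0 := h1 (hgen (act f r.i))
  rwa [act_retract] at h2

/-- vanishing for negative shifts -/
theorem coh_zero_of_gen (hG : IsSmoothProj G) (hB : Base G)
    (h0 : ∀ (X : M.T) (d : ℤ), G.Chow X → InDeg M.R M.s d X → 0 < d → ∀ f : Coh M 0 X, f = 0)
    (hS : SmallDimension G) (D : ℕ) : ∀ (V : G.Var) (n m a : ℤ) (X : M.T)
      (_ : Retract X (G.obj V n)), G.dim V < D → InDeg M.R M.s a X → m < 0 → m ≤ a →
        ∀ f : Coh M m X, f = 0 := by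
  induction D with
  | zero => intro V n m a X r h; omega
  | succ D ih =>
    intro V n m a X r hVD hd hm hma f
    rcases isZero_or_exists_middle' hG hB r hd with h | ⟨Y, n', h1, h2, -, ⟨j⟩⟩
    · exact (Functor.map_isZero (shiftFunctor M.T m) h).eq_of_tgt _ _
    · exact step hG hB h0 j hd h1 hma (hS Y n' m hm)
        (fun Y' A s b hY' hb hmb f => ih Y' n' m b A s (by omega) hb hm hmb f) f

theorem pos_of_bb (hG : IsSmoothProj G) (hB : BlochBeilinson G 0) :
    ∀ (X : M.T) (d : ℤ), G.Chow X → InDeg M.R M.s d X → 0 < d → ∀ f : Coh M 0 X, f = 0 :=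
  fun _ _ hX hd h0 f => coh_zero_of_lt hG hB hX hd h0 f

/-- from the vanishing for negative shifts to the t-structure -/
theorem motivic_of_vanishing (hG : IsSmoothProj G) (hC : KunnethC G) (hD : HomEqNum G)
    (hB : BlochBeilinson G 0)
    (hv : ∀ (X : M.T) (m a : ℤ), G.Chow X → InDeg M.R M.s a X → m < 0 → m ≤ a →
      ∀ f : Coh M m X, f = 0) :
    M.toRealised.HasMotivicTStructure := by
  rw [hasMotivicTStructure_iff]
  have key := (general_criterion hG.setup (lefschetz hG)).out 0 1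
  refine key.2 ⟨kunneth hG (base_of_bb hG hC hD hB), fun X d hX hd => ⟨fun m hm f => ?_,
    pureNumerical_of hG (fun X d hX hd f hf => ?_) X d hX hd⟩⟩
  · rcases lt_trichotomy m 0 with h | h | h
    · exact hv X m d hX hd h (by omega) f
    · subst h
      exact coh_zero_of_lt hG hB hX hd hm f
    · exact hG.setup.orth _ _ hG.setup.one_mem hX m h f
  · rcases lt_trichotomy d 0 with h | h | h
    · exact hv X d d hX hd h le_rfl f
    · subst h
      exact coh_zero_of_eq hG hB hX hd f (zeroAt_of_numTrivial hD hX f hf)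
    · exact hG.setup.orth _ _ hG.setup.one_mem hX d h f

theorem motivic_of_small (hG : IsSmoothProj G) (hC : KunnethC G) (hD : HomEqNum G)
    (hB : BlochBeilinson G 0) (hS : SmallDimension G) :
    M.toRealised.HasMotivicTStructure := by
  refine motivic_of_vanishing hG hC hD hB fun X m a hX hd hm hma f => ?_
  obtain ⟨V, n, ⟨r⟩⟩ := hX
  exact coh_zero_of_gen hG (base_of_bb hG hC hD hB) (pos_of_bb hG hB) hS (G.dim V + 1) V n m a X r
    (by omega) hd hm hma f

/-- condition (4) implies condition (1) -/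
theorem motivic_of_middleWeights (hG : IsSmoothProj G) (hC : KunnethC G)
    (hW : MiddleWeights G) : M.toRealised.HasMotivicTStructure := by
  have hW' : MiddleWeight G := by
    intro V n m δ f hm hδ hf hf'
    refine hW V n m δ f (by omega) hδ ?_ hf'
    unfold HasWeight
    rw [← hm]
    exact hf
  have hB : Base G := base hG hC hW'
  rw [hasMotivicTStructure_iff]
  have key := (general_criterion hG.setup (lefschetz hG)).out 0 1
  refine key.2 ⟨kunneth hG hB, fun X a hX hd => ⟨fun m hm f => ?_,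
    pureNumerical_of_middleWeight hG hC hW' X a hX hd⟩⟩
  rcases isZero_or_exists_middle hG hB hX hd with h | ⟨Y, n, hn, ⟨r⟩⟩
  · exact (Functor.map_isZero (shiftFunctor M.T m) h).eq_of_tgt _ _
  · have hnum : NumTrivial M f := by
      refine numTrivial_of_zeroAt hG ?_
      have h1 : InDeg M.R M.s (a - m) (X⟦m⟧) := RDeg.shift (by ring) hd
      exact zeroAt_of_inDeg_right (by omega) h1 _
    obtain ⟨ε, hε⟩ := hC Y n
    have h3 : r.i ≫ (r.r ≫ ((a : ℚ) • 𝟙 X) ≫ r.i +
        (𝟙 (G.obj Y n) - r.r ≫ r.i) ≫ ε ≫ (𝟙 (G.obj Y n) - r.r ≫ r.i)) = (a : ℚ) • r.i := by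
      simp
    have h4 : act f r.i = 0 := by
      refine hW Y n m _ _ (by omega) ((isDegree_of_inDeg hd).extend r hε) ?_
        (NumTrivial.comp hnum _)
      unfold HasWeight IsMultiple
      rw [← act_comp, h3, hn]
      unfold act
      rw [Functor.map_smul, Linear.comp_smul]
    rw [← act_retract r f, h4, zero_act]

end

/-! ### all fields -/

section
variable {ι : Type w'} {M : ι → Motives.{v₁, v₂, u₁, u₂} Λ} {G : ∀ K, Varieties.{u} (M K)}
  (hG : ∀ K, IsSmoothProj (G K))
  (hE : ∀ K, ∃ (K' : ι) (E : RationalData (G K) (G K')), IsRational E ∧ PreservesDim E)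
include hG hE

/-- the gap can be lowered -/
theorem coh_zero_of_gap (D : ℕ)
    (h : ∀ (K : ι) (V : (G K).Var) (n m : ℤ) (X : (M K).T) (_ : Retract X ((G K).obj V n)),
      (G K).dim V < D → InDeg (M K).R (M K).s m X → m < 0 → ∀ f : Coh (M K) m X, f = 0)
    (g : ℕ) : ∀ (K : ι) (V : (G K).Var) (n m : ℤ) (X : (M K).T) (_ : Retract X ((G K).obj V n)),
      (G K).dim V < D → InDeg (M K).R (M K).s (m + g) X → m < 0 → ∀ f : Coh (M K) m X, f = 0 := by
  induction g with
  | zero =>
    intro K V n m X r hV hd hm f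
    exact h K V n m X r hV (by simpa using hd) hm f
  | succ g ih =>
    intro K V n m X r hV hd hm f
    obtain ⟨K', E, hE1, hE2⟩ := hE K
    obtain ⟨V', hV', ⟨e⟩⟩ := hE2 V n
    obtain ⟨e2⟩ := (hG K').twist V' n
    refine eq_zero_of_rational hE1 ?_ f
    have h1 : InDeg (M K').R (M K').s ((m - 1) + g) (E.pull.obj X ⊗ (G K').tate) := by
      have := inDeg_tensor (hG K') (inDeg_pull hE1.deg hd) (hG K').tate_deg
      have h2 : (m + (g + 1 : ℕ) + -2 : ℤ) = (m - 1) + g := by push_cast; ring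
      rwa [h2] at this
    let r' : Retract (E.pull.obj X ⊗ (G K').tate) ((G K').obj V' (n + 1)) :=
      ((r.map E.pull).map (tensorRight (G K').tate)).trans (Retract.ofIso
        ((tensorRight (G K').tate).mapIso e ≪≫ β_ _ _ ≪≫ e2.symm))
    exact ih K' V' (n + 1) (m - 1) _ r' (by omega) h1 (by omega)

theorem coh_zero_of_genMiddle (hB : ∀ K, Base (G K))
    (h0 : ∀ K, ∀ (X : (M K).T) (d : ℤ), (G K).Chow X → InDeg (M K).R (M K).s d X → 0 < d →
      ∀ f : Coh (M K) 0 X, f = 0)
    (hS : ∀ K, SmallDimensionMiddle (G K)) (D : ℕ) : ∀ (K : ι) (V : (G K).Var) (n m a : ℤ)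
      (X : (M K).T) (_ : Retract X ((G K).obj V n)), (G K).dim V < D →
        InDeg (M K).R (M K).s a X → m < 0 → m ≤ a → ∀ f : Coh (M K) m X, f = 0 := by
  induction D with
  | zero => intro K V n m a X r h; omega
  | succ D ih =>
    intro K V n m a X r hVD hd hm hma f
    obtain ⟨g, rfl⟩ : ∃ g : ℕ, a = m + g := ⟨(a - m).toNat, by omega⟩
    refine coh_zero_of_gap hG hE (D + 1) ?_ g K V n m X r hVD hd hm f
    intro K V n m X r hVD hd hm f
    rcases isZero_or_exists_middle' (hG K) (hB K) r hd with h | ⟨Y, n', h1, h2, -, ⟨j⟩⟩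
    · exact (Functor.map_isZero (shiftFunctor (M K).T m) h).eq_of_tgt _ _
    · exact step (hG K) (hB K) (h0 K) j hd h1 le_rfl (hS K Y n' m hm (by omega))
        (fun Y' A s b hY' hb hmb f => ih K Y' n' m b A s (by omega) hb hm hmb f) f

theorem motivic_of_smallMiddle (hC : ∀ K, KunnethC (G K)) (hD : ∀ K, HomEqNum (G K))
    (hB : ∀ K, BlochBeilinson (G K) 0) (hS : ∀ K, SmallDimensionMiddle (G K)) (K : ι) :
    (M K).toRealised.HasMotivicTStructure := by
  refine motivic_of_vanishing (hG K) (hC K) (hD K) (hB K) fun X m a hX hd hm hma f => ?_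
  obtain ⟨V, n, ⟨r⟩⟩ := hX
  exact coh_zero_of_genMiddle hG hE (fun K => base_of_bb (hG K) (hC K) (hD K) (hB K))
    (fun K => pos_of_bb (hG K) (hB K)) hS ((G K).dim V + 1) K V n m a X r (by omega) hd hm hma f

end

end Pool.Agent.KS6_28.BF
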