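import Pool.Agent.KS6_28.BF.Gen
import Pool.Agent.KS6_28.MW.Main

/-!
# The main theorem
-/

open CategoryTheory Limits MonoidalCategory Triangulated Pretriangulated

universe u v₁ v₂ u₁ u₂ w w'

namespace Pool.Agent.KS6_28.BF

open Pool.Agent.KS6_13.PF
open Pool.Agent.KS6_28.MW
open Pool.Agent.W492 Pool.Agent.W492.PC
open Pool.Agent.W492.MT (InDeg)

section
variable {Λ : Type w} [Nonempty Λ] {M : Motives.{v₁, v₂, u₁, u₂} Λ} {G : Varieties.{u} M}

theorem data_of_motivic (hG : IsSmoothProj G) (h : M.toRealised.HasMotivicTStructure) :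
    PureNumerical M G.Chow ∧ (∀ (X : M.T) (d : ℤ), G.Chow X → InDeg M.R M.s d X → ∀ m : ℤ, m < d →
      ∀ f : 𝟙_ M.T ⟶ X⟦m⟧, f = 0) ∧ MT.Kunneth M.R M.s G.Chow := by
  rw [hasMotivicTStructure_iff] at h
  have key := (general_criterion hG.setup (lefschetz hG)).out 0 1
  obtain ⟨hK, h2⟩ := key.1 h
  exact ⟨fun X d hX hd => (h2 X d hX hd).2, fun X d hX hd => (h2 X d hX hd).1, hK⟩

/-- one field -/
theorem single (hG : IsSmoothProj G) (hW : NoClasses G) :
    List.TFAE [
      M.toRealised.HasMotivicTStructure,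
      KunnethC G ∧ HomEqNum G ∧ ∀ m, BlochBeilinson G m,
      KunnethC G ∧ HomEqNum G ∧ BlochBeilinson G 0 ∧ SmallDimension G,
      KunnethC G ∧ MiddleWeights G] := by
  tfae_have 1 → 2 := fun h => by
    obtain ⟨hN, hV, hK⟩ := data_of_motivic hG h
    exact ⟨(of_motivic hG h).1, homEqNum_of_parts hG hN hV hK,
      fun m => ⟨_, isBlochBeilinson hG hN hV hK m⟩⟩
  tfae_have 1 → 3 := fun h => by
    obtain ⟨hN, hV, hK⟩ := data_of_motivic hG h
    exact ⟨(of_motivic hG h).1, homEqNum_of_parts hG hN hV hK,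
      ⟨_, isBlochBeilinson hG hN hV hK 0⟩, smallDimension_of_kunneth hG hN hV hK
        (base hG (of_motivic hG h).1 (of_motivic hG h).2)⟩
  tfae_have 1 → 4 := fun h => by
    obtain ⟨hN, hV, hK⟩ := data_of_motivic hG h
    exact ⟨(of_motivic hG h).1, middleWeights_of_kunneth hG hN hV hK⟩
  tfae_have 2 → 1 := fun ⟨hC, hD, hB⟩ => motivic_of_bb hG hW hC hD hB
  tfae_have 3 → 1 := fun ⟨hC, hD, hB, hS⟩ => motivic_of_small hG hC hD hB hS
  tfae_have 4 → 1 := fun ⟨hC, hM⟩ => motivic_of_middleWeights hG hC hM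
  tfae_finish

end

section
variable {Λ : Type w} [Nonempty Λ] {M : Motives.{v₁, v₂, u₁, u₂} Λ} {G : Varieties.{u} M}

theorem middleWeight_iff : MiddleClasses G ↔ MiddleWeight G := by
  constructor
  · intro h V n m δ f hm hδ hf hf'
    refine h V n m δ f (by omega) hδ ?_ hf'
    unfold HasWeight
    rw [← hm]
    exact hf
  · intro h V n m δ f hm hδ hf hf'
    have h1 : m = G.dim V - 2 * n := by omega
    refine h V n m δ f h1 hδ ?_ hf'
    unfold HasWeight at hf
    rw [← h1] at hf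
    exact hf

theorem pureClasses_of (hG : IsSmoothProj G) (h : PureNumerical M G.Chow) : PureClasses G := by
  intro X d hX hd f hf
  rcases lt_trichotomy d 0 with h0 | h0 | h0
  · exact hom_zero_of_neg hG h hX hd h0 _
  · subst h0
    have h1 : f ≫ (shiftFunctorZero M.T ℤ).hom.app X = 0 :=
      eq_zero_of_pureNumerical hG h hX hd _ (NumTrivial.comp hf _)
    change f = 0
    rw [← cancel_mono ((shiftFunctorZero M.T ℤ).hom.app X), h1, zero_comp]
  · exact hG.setup.orth _ _ hG.setup.one_mem hX d h0 _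

end

/-- all fields -/
theorem all {Λ : Type w} [Nonempty Λ] {ι : Type w'} {M : ι → Motives.{v₁, v₂, u₁, u₂} Λ}
    {G : ∀ K, Varieties.{u} (M K)} (hG : ∀ K, IsSmoothProj (G K))
    (hE : ∀ K, ∃ (K' : ι) (E : RationalData (G K) (G K')), IsRational E ∧ PreservesDim E)
    (hW : ∀ K, NoClasses (G K)) :
    List.TFAE [
      ∀ K, (M K).toRealised.HasMotivicTStructure,
      ∀ K, MT.Kunneth (M K).R (M K).s (G K).Chow ∧ PureClasses (G K),
      ∀ K, KunnethC (G K) ∧ MiddleClasses (G K),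
      ∀ K, KunnethC (G K) ∧ HomEqNum (G K) ∧ BlochBeilinson (G K) 0 ∧
        SmallDimensionMiddle (G K)] := by
  have hE' : ∀ K, ∃ (K' : ι) (E : RationalData (G K) (G K')), IsRational E := fun K => by
    obtain ⟨K', E, h1, -⟩ := hE K
    exact ⟨K', E, h1⟩
  have key := main hG hE'
  have h12 := key.out 0 1
  have h13 := key.out 0 2
  tfae_have 1 ↔ 2 := h12.trans ⟨fun h K => ⟨(h K).1, pureClasses_of (hG K) (h K).2⟩,
    fun h K => ⟨(h K).1, pureNumerical_of (hG K) (h K).2⟩⟩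
  tfae_have 1 ↔ 3 := h13.trans ⟨fun h K => ⟨(h K).1, middleWeight_iff.2 (h K).2⟩,
    fun h K => ⟨(h K).1, middleWeight_iff.1 (h K).2⟩⟩
  tfae_have 1 → 4 := by
    intro h K
    obtain ⟨h1, h2, h3, h4⟩ := ((single (hG K) (hW K)).out 0 2).1 (h K)
    exact ⟨h1, h2, h3, fun V n m hm _ => h4 V n m hm⟩
  tfae_have 4 → 1 := by
    intro h K
    exact motivic_of_smallMiddle hG hE (fun K => (h K).1) (fun K => (h K).2.1)
      (fun K => (h K).2.2.1) (fun K => (h K).2.2.2) K
  tfae_finish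

end Pool.Agent.KS6_28.BF
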